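import Pool.Agent.MP_db5b97_nt.H31.SpecN

/-! The Selberg sieve on set systems and a lower bound for its main sum. -/

open Finset

namespace Pool.Agent.MP_db5b97_nt.H52

open Pool.Agent.MP_db5b97_nt.H31

namespace SelAux

theorem alt (E G : Finset ℕ) :
    ∑ D ∈ G.powerset, (if E ⊆ D then (-1 : ℝ) ^ D.card else 0) =
      if E = G then (-1) ^ E.card else 0 := by
  by_cases h : E ⊆ G
  · have h1 : ∑ D ∈ G.powerset, (if E ⊆ D then (-1 : ℝ) ^ D.card else 0) =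
        ∑ H ∈ (G \ E).powerset, (-1 : ℝ) ^ E.card * (-1) ^ H.card := by
      rw [← sum_filter]
      refine sum_nbij' (fun D => D \ E) (fun H => H ∪ E) ?_ ?_ ?_ ?_ ?_
      · intro D hD
        simp only [mem_filter, mem_powerset] at hD ⊢
        exact sdiff_subset_sdiff hD.1 subset_rfl
      · intro H hH
        simp only [mem_filter, mem_powerset] at hH ⊢
        exact ⟨union_subset (hH.trans sdiff_subset) h, subset_union_right⟩
      · intro D hD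
        exact sdiff_union_of_subset (mem_filter.1 hD).2
      · intro H hH
        exact union_sdiff_cancel_right
          (disjoint_of_subset_left (mem_powerset.1 hH) sdiff_disjoint)
      · intro D hD
        rw [← pow_add, add_comm, card_sdiff_add_card_eq_card (mem_filter.1 hD).2]
    have h2 : ∑ H ∈ (G \ E).powerset, (-1 : ℝ) ^ H.card = if G \ E = ∅ then 1 else 0 := by
      have := congrArg (Int.cast : ℤ → ℝ) (sum_powerset_neg_one_pow_card (x := G \ E))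
      push_cast at this
      exact this
    rw [h1, ← mul_sum, h2]
    by_cases hE : E = G
    · simp [hE]
    · rw [if_neg hE, if_neg fun h3 => hE (h.antisymm (sdiff_eq_empty_iff_subset.1 h3)), mul_zero]
  · rw [if_neg fun h1 => h h1.subset]
    exact sum_eq_zero fun D hD => if_neg fun h1 => h (h1.trans (mem_powerset.1 hD))

theorem sum_sub {F : Finset (Finset ℕ)} (hF : ∀ D ∈ F, ∀ D' ⊆ D, D' ∈ F) {G : Finset ℕ}
    (hG : G ∈ F) (f : Finset ℕ → ℝ) :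
    ∑ D ∈ F, (if D ⊆ G then f D else 0) = ∑ D ∈ G.powerset, f D := by
  rw [← sum_filter]
  refine sum_congr ?_ fun _ _ => rfl
  ext D
  simp only [mem_filter, mem_powerset]
  exact ⟨fun h => h.2, fun h => ⟨hF G hG D h, h⟩⟩

/-- The unnormalised weights. -/
noncomputable def u (F : Finset (Finset ℕ)) (g : Finset ℕ → ℝ) (D : Finset ℕ) : ℝ :=
  (-1) ^ D.card * ∑ G ∈ F, if D ⊆ G then g G else 0

theorem y_eq {F : Finset (Finset ℕ)} (hF : ∀ D ∈ F, ∀ D' ⊆ D, D' ∈ F) (g : Finset ℕ → ℝ)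
    {E : Finset ℕ} (hE : E ∈ F) :
    ∑ D ∈ F, (if E ⊆ D then u F g D else 0) = (-1) ^ E.card * g E := by
  have h1 : ∀ D ∈ F, (if E ⊆ D then u F g D else 0) =
      ∑ G ∈ F, g G * if D ⊆ G then (if E ⊆ D then (-1 : ℝ) ^ D.card else 0) else 0 := by
    intro D _
    by_cases h : E ⊆ D
    · rw [if_pos h, if_pos h, u, mul_sum]
      refine sum_congr rfl fun G _ => ?_
      split_ifs <;> ring
    · simp [h]
  rw [sum_congr rfl h1, sum_comm]
  have h2 : ∀ G ∈ F, ∑ D ∈ F, g G * (if D ⊆ G then (if E ⊆ D then (-1 : ℝ) ^ D.card else 0)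
      else 0) = if E = G then (-1) ^ E.card * g G else 0 := by
    intro G hG
    rw [← mul_sum, sum_sub hF hG, alt]
    split_ifs <;> ring
  rw [sum_congr rfl h2, sum_ite_eq, if_pos hE]

theorem form_eq {F : Finset (Finset ℕ)} (hF : ∀ D ∈ F, ∀ D' ⊆ D, D' ∈ F) (ν : ℕ → ℝ)
    (hν : ∀ D ∈ F, ∀ p ∈ D, 0 < ν p ∧ ν p < 1) {g : Finset ℕ → ℝ}
    (hg : ∀ D, g D = ∏ p ∈ D, ν p / (1 - ν p)) :
    ∑ D ∈ F, ∑ D' ∈ F, (u F g D * ∏ p ∈ D, 1 / ν p) * (u F g D' * ∏ p ∈ D', 1 / ν p) *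
      ∏ p ∈ D ∪ D', ν p = ∑ D ∈ F, g D := by
  have h1 : ∀ D ∈ F, ∀ D' ∈ F, (u F g D * ∏ p ∈ D, 1 / ν p) * (u F g D' * ∏ p ∈ D', 1 / ν p) *
      ∏ p ∈ D ∪ D', ν p = ∑ E ∈ F, (g E)⁻¹ *
        ((if E ⊆ D then u F g D else 0) * if E ⊆ D' then u F g D' else 0) := by
    intro D hD D' hD'
    have hI : D ∩ D' ∈ F := hF D hD _ inter_subset_left
    have e1 : (∏ p ∈ D, 1 / ν p) * (∏ p ∈ D', 1 / ν p) * ∏ p ∈ D ∪ D', ν p =
        ∏ p ∈ D ∩ D', (1 + (ν p / (1 - ν p))⁻¹) := by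
      rw [← prod_union_inter, mul_right_comm, ← prod_mul_distrib, prod_eq_one, one_mul]
      · refine prod_congr rfl fun p hp => ?_
        have := (hν _ hI p hp).1.ne'
        rw [inv_div]
        field_simp
        ring
      · intro p hp
        have : ν p ≠ 0 := by
          rcases mem_union.1 hp with h | h
          exacts [(hν D hD p h).1.ne', (hν D' hD' p h).1.ne']
        field_simp
    have e2 : ∏ p ∈ D ∩ D', (1 + (ν p / (1 - ν p))⁻¹) =
        ∑ E ∈ F, if E ⊆ D ∩ D' then (g E)⁻¹ else 0 := by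
      rw [prod_one_add, sum_sub hF hI]
      exact sum_congr rfl fun E _ => by rw [hg, prod_inv_distrib]
    calc _ = u F g D * u F g D' *
          ((∏ p ∈ D, 1 / ν p) * (∏ p ∈ D', 1 / ν p) * ∏ p ∈ D ∪ D', ν p) := by ring
      _ = _ := by
        rw [e1, e2, mul_sum]
        refine sum_congr rfl fun E _ => ?_
        by_cases a : E ⊆ D <;> by_cases b : E ⊆ D' <;> simp [a, b, subset_inter_iff, mul_comm]
  rw [sum_congr rfl fun D hD => sum_congr rfl (h1 D hD), sum_congr rfl fun D _ => sum_comm,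
    sum_comm]
  refine sum_congr rfl fun E hE => ?_
  have h0 : g E ≠ 0 := by
    rw [hg]
    refine prod_ne_zero_iff.2 fun p hp => ?_
    obtain ⟨a, b⟩ := hν E hE p hp
    exact (div_pos a (sub_pos.2 b)).ne'
  simp only [← mul_sum]
  rw [← sum_mul, y_eq hF g hE]
  have h2 : ((-1 : ℝ) ^ E.card) * (-1) ^ E.card = 1 := by
    rw [← mul_pow]
    simp
  calc _ = ((-1 : ℝ) ^ E.card * (-1) ^ E.card) * ((g E)⁻¹ * g E) * g E := by ring
    _ = _ := by rw [h2, inv_mul_cancel₀ h0, one_mul, one_mul]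

end SelAux

open SelAux in
theorem rowSEL : RowSEL := by
  intro A E F ν X R h0 hF hν hR
  set g : Finset ℕ → ℝ := fun D => ∏ p ∈ D, ν p / (1 - ν p) with hg
  have hg0 : ∀ D ∈ F, 0 ≤ g D := fun D hD => prod_nonneg fun p hp =>
    (div_pos (hν D hD p hp).1 (sub_pos.2 (hν D hD p hp).2)).le
  have hform := form_eq hF ν hν (g := g) fun _ => rfl
  change _ ≤ X / (∑ D ∈ F, g D) + _
  set S := ∑ D ∈ F, g D with hS
  have hS1 : 1 ≤ S := by
    have h1 : g ∅ = 1 := prod_empty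
    exact h1.ge.trans (single_le_sum hg0 h0)
  have hS0 : 0 < S := by linarith
  have hR0 : 0 ≤ R := (abs_nonneg _).trans (hR ∅ h0 ∅ h0)
  set w : Finset ℕ → ℝ := fun D => S⁻¹ * (u F g D * ∏ p ∈ D, 1 / ν p) with hw
  have hw0 : w ∅ = 1 := by
    simp only [hw, u, card_empty, pow_zero, empty_subset, if_true, prod_empty, one_mul, mul_one]
    exact inv_mul_cancel₀ hS0.ne'
  have hwle : ∀ D ∈ F, |w D| ≤ ∏ p ∈ D, 1 / ν p := by
    intro D hD
    have h1 : 0 ≤ ∏ p ∈ D, 1 / ν p := prod_nonneg fun p hp => (one_div_pos.2 (hν D hD p hp).1).le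
    have h2 : |u F g D| ≤ S := by
      rw [u, abs_mul, abs_pow, abs_neg, abs_one, one_pow, one_mul, abs_of_nonneg]
      · refine sum_le_sum fun G hG => ?_
        split_ifs
        exacts [le_rfl, hg0 G hG]
      · refine sum_nonneg fun G hG => ?_
        split_ifs
        exacts [hg0 G hG, le_rfl]
    simp only [hw]
    rw [abs_mul, abs_mul, abs_of_pos (inv_pos.2 hS0), abs_of_nonneg h1, ← mul_assoc]
    refine mul_le_of_le_one_left h1 ?_
    rw [inv_mul_le_iff₀ hS0, mul_one]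
    exact h2
  have hq : ∑ D ∈ F, ∑ D' ∈ F, w D * w D' * (X * ∏ p ∈ D ∪ D', ν p) = X / S := by
    calc _ = X * S⁻¹ ^ 2 * ∑ D ∈ F, ∑ D' ∈ F, (u F g D * ∏ p ∈ D, 1 / ν p) *
          (u F g D' * ∏ p ∈ D', 1 / ν p) * ∏ p ∈ D ∪ D', ν p := by
          simp only [mul_sum, hw]
          exact sum_congr rfl fun D _ => sum_congr rfl fun D' _ => by ring
      _ = _ := by
          rw [hform]
          field_simp
  have h1 : ((A.filter fun n => ∀ D ∈ F, ∀ p ∈ D, n ∉ E p).card : ℝ) ≤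
      ∑ n ∈ A, (∑ D ∈ F, if ∀ p ∈ D, n ∈ E p then w D else 0) ^ 2 := by
    rw [← sum_boole]
    refine sum_le_sum fun n _ => ?_
    split_ifs with h
    · rw [sum_eq_single_of_mem ∅ h0, if_pos (by simp), hw0, one_pow]
      intro D hD hne
      obtain ⟨p, hp⟩ := nonempty_iff_ne_empty.2 hne
      exact if_neg fun h2 => h D hD p hp (h2 p hp)
    · positivity
  have h2 : ∑ n ∈ A, (∑ D ∈ F, if ∀ p ∈ D, n ∈ E p then w D else 0) ^ 2 =
      ∑ D ∈ F, ∑ D' ∈ F, w D * w D' * ((A.filter fun n => ∀ p ∈ D ∪ D', n ∈ E p).card : ℝ) := by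
    simp only [sq, sum_mul_sum]
    rw [sum_comm]
    refine sum_congr rfl fun D _ => ?_
    rw [sum_comm]
    refine sum_congr rfl fun D' _ => ?_
    rw [← sum_boole, mul_sum]
    refine sum_congr rfl fun n _ => ?_
    simp only [forall_mem_union]
    rw [ite_zero_mul_ite_zero, mul_ite, mul_one, mul_zero]
  rw [← hq, sq (∑ D ∈ F, _), sum_mul_sum, mul_sum, ← sum_add_distrib]
  refine h1.trans (h2.trans_le (sum_le_sum fun D hD => ?_))
  rw [mul_sum, ← sum_add_distrib]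
  refine sum_le_sum fun D' hD' => ?_
  have h3 : |w D * w D' * (((A.filter fun n => ∀ p ∈ D ∪ D', n ∈ E p).card : ℝ) -
      X * ∏ p ∈ D ∪ D', ν p)| ≤ (∏ p ∈ D, 1 / ν p) * (∏ p ∈ D', 1 / ν p) * R := by
    have a := (abs_nonneg _).trans (hwle D hD)
    have b := (abs_nonneg _).trans (hwle D' hD')
    rw [abs_mul, abs_mul]
    exact mul_le_mul (mul_le_mul (hwle D hD) (hwle D' hD') (abs_nonneg _) a) (hR D hD D' hD')
      (abs_nonneg _) (mul_nonneg a b)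
  have h4 := (le_abs_self _).trans h3
  linarith

namespace SgAux

/-- The integers up to `y` without a divisor in `P`. -/
def fr (P : Finset ℕ) (y : ℕ) : Finset ℕ := (Icc 1 y).filter fun n => ∀ p ∈ P, ¬ p ∣ n

theorem step (P : Finset ℕ) (y : ℕ) {q : ℕ} (hq : 1 ≤ q) :
    (1 - (q : ℝ)⁻¹) * ∑ n ∈ fr P y, (n : ℝ)⁻¹ ≤ ∑ n ∈ fr (insert q P) y, (n : ℝ)⁻¹ := by
  have h1 : fr (insert q P) y = (fr P y).filter fun n => ¬ q ∣ n := by
    ext n
    simp only [fr, mem_filter, forall_mem_insert]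
    tauto
  have h2 := sum_filter_add_sum_filter_not (fr P y) (fun n => q ∣ n) fun n => (n : ℝ)⁻¹
  have h3 : (fr P y).filter (fun n => q ∣ n) ⊆ (fr P y).image fun k => q * k := by
    intro n hn
    obtain ⟨hn1, k, rfl⟩ := mem_filter.1 hn
    obtain ⟨hn2, hn3⟩ := mem_filter.1 hn1
    obtain ⟨hn4, hn5⟩ := mem_Icc.1 hn2
    refine mem_image.2 ⟨k, mem_filter.2 ⟨mem_Icc.2 ⟨Nat.pos_of_mul_pos_left hn4, ?_⟩,
      fun p hp h => hn3 p hp (h.mul_left q)⟩, rfl⟩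
    exact (Nat.le_mul_of_pos_left k hq).trans hn5
  have h4 : ∑ n ∈ (fr P y).filter (fun n => q ∣ n), (n : ℝ)⁻¹ ≤
      ∑ k ∈ fr P y, ((q * k : ℕ) : ℝ)⁻¹ :=
    (sum_le_sum_of_subset_of_nonneg h3 fun _ _ _ => by positivity).trans
      (sum_image_le_of_nonneg (f := fun n : ℕ => (n : ℝ)⁻¹) fun _ _ => by positivity)
  have h5 : ∑ k ∈ fr P y, ((q * k : ℕ) : ℝ)⁻¹ = (q : ℝ)⁻¹ * ∑ k ∈ fr P y, (k : ℝ)⁻¹ := by
    rw [mul_sum]
    refine sum_congr rfl fun k _ => ?_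
    push_cast
    rw [mul_inv]
  rw [h1]
  linarith

theorem sieve (P : Finset ℕ) (y : ℕ) (hP : ∀ p ∈ P, 1 ≤ p) :
    (∏ p ∈ P, (1 - (p : ℝ)⁻¹)) * ∑ n ∈ Icc 1 y, (n : ℝ)⁻¹ ≤ ∑ n ∈ fr P y, (n : ℝ)⁻¹ := by
  induction P using Finset.induction_on with
  | empty => simp [fr]
  | insert q P hq ih =>
    have h1 := hP q (mem_insert_self _ _)
    have h2 : (0 : ℝ) ≤ 1 - (q : ℝ)⁻¹ :=
      sub_nonneg.2 (inv_le_one_of_one_le₀ (by exact_mod_cast h1))
    rw [prod_insert hq, mul_assoc]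
    exact (mul_le_mul_of_nonneg_left (ih fun p hp => hP p (mem_insert_of_mem hp)) h2).trans
      (step P y h1)

theorem log_le (y : ℕ) : Real.log y ≤ ∑ n ∈ Icc 1 y, (n : ℝ)⁻¹ := by
  have h := log_add_one_le_harmonic y
  simp only [harmonic_eq_sum_Icc, Rat.cast_sum, Rat.cast_inv, Rat.cast_natCast] at h
  refine le_trans ?_ h
  rcases Nat.eq_zero_or_pos y with rfl | hQ
  · simp
  · exact Real.log_le_log (by exact_mod_cast hQ) (by exact_mod_cast Nat.le_succ y)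

/-- The weight of a set of primes. -/
noncomputable def w (A : Finset ℕ) : ℝ := ∏ p ∈ A, (p : ℝ)⁻¹

theorem w_nonneg (A : Finset ℕ) : 0 ≤ w A := prod_nonneg fun _ _ => by positivity

/-- Sets of primes above `v` with product at most `z`. -/
def fam (v z : ℕ) : Finset (Finset ℕ) :=
  ((range (z + 1)).filter fun p => p.Prime ∧ v < p).powerset.filter fun D => ∏ p ∈ D, p ≤ z

theorem mem_fam {v z : ℕ} {D : Finset ℕ} :
    D ∈ fam v z ↔ (∀ p ∈ D, p.Prime ∧ v < p) ∧ ∏ p ∈ D, p ≤ z := by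
  rw [fam, mem_filter, mem_powerset]
  constructor
  · rintro ⟨h1, h2⟩
    exact ⟨fun p hp => (mem_filter.1 (h1 hp)).2, h2⟩
  · rintro ⟨h1, h2⟩
    refine ⟨fun p hp => mem_filter.2 ⟨mem_range.2 (Nat.lt_succ_of_le ?_), h1 p hp⟩, h2⟩
    exact (Nat.le_of_dvd (prod_pos fun r hr => (h1 r hr).1.pos)
      (dvd_prod_of_mem (fun r => r) hp)).trans h2

/-- The primes up to `v`. -/
def PP (v : ℕ) : Finset ℕ := (range (v + 1)).filter Nat.Prime

theorem sqf (v y : ℕ) : ∑ n ∈ fr (PP v) y, (n : ℝ)⁻¹ ≤ 2 * ∑ A ∈ fam v y, w A := by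
  set B := Ioo 0 (y + 1)
  have h1 : fr (PP v) y ⊆
      (B ×ˢ fam v y).image fun x : ℕ × Finset ℕ => x.1 ^ 2 * ∏ p ∈ x.2, p := by
    intro n hn
    obtain ⟨hn0, hn3⟩ := mem_filter.1 hn
    obtain ⟨hn1, hnQ⟩ := mem_Icc.1 hn0
    obtain ⟨a, b, ha, hb, hab, hsq⟩ := Nat.sq_mul_squarefree_of_pos hn1
    have han : a ∣ n := ⟨b ^ 2, by rw [← hab]; ring⟩
    have hp := Nat.prod_primeFactors_of_squarefree hsq
    refine mem_image.2 ⟨(b, a.primeFactors), mem_product.2 ⟨mem_Ioo.2 ⟨hb, ?_⟩,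
      mem_fam.2 ⟨fun p h => ⟨Nat.prime_of_mem_primeFactors h, ?_⟩, ?_⟩⟩, ?_⟩
    · have : b ≤ n := Nat.le_of_dvd hn1 ⟨b * a, by rw [← hab]; ring⟩
      show b < y + 1
      omega
    · by_contra h2
      exact hn3 p (mem_filter.2 ⟨mem_range.2 (by omega), Nat.prime_of_mem_primeFactors h⟩)
        ((Nat.dvd_of_mem_primeFactors h).trans han)
    · show ∏ p ∈ a.primeFactors, p ≤ y
      rw [hp]
      exact (Nat.le_of_dvd hn1 han).trans hnQ
    · show b ^ 2 * ∏ p ∈ a.primeFactors, p = n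
      rw [hp, hab]
  have h2 : ∑ n ∈ fr (PP v) y, (n : ℝ)⁻¹ ≤
      ∑ x ∈ B ×ˢ fam v y, ((x.1 ^ 2 * ∏ p ∈ x.2, p : ℕ) : ℝ)⁻¹ :=
    (sum_le_sum_of_subset_of_nonneg h1 fun _ _ _ => by positivity).trans
      (sum_image_le_of_nonneg (f := fun n : ℕ => (n : ℝ)⁻¹) fun _ _ => by positivity)
  have h3 : ∑ x ∈ B ×ˢ fam v y, ((x.1 ^ 2 * ∏ p ∈ x.2, p : ℕ) : ℝ)⁻¹ =
      (∑ b ∈ B, ((b : ℝ) ^ 2)⁻¹) * ∑ A ∈ fam v y, w A := by
    rw [sum_product, sum_mul_sum]
    refine sum_congr rfl fun b _ => sum_congr rfl fun a _ => ?_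
    push_cast
    rw [mul_inv, w, prod_inv_distrib]
  have h4 : ∑ b ∈ B, ((b : ℝ) ^ 2)⁻¹ ≤ 2 := by
    simpa using sum_Ioo_inv_sq_le (α := ℝ) 0 (y + 1)
  have h6 : 0 ≤ ∑ A ∈ fam v y, w A := sum_nonneg fun A _ => w_nonneg A
  nlinarith

theorem inner (a b : ℕ → ℝ) (D : Finset ℕ) :
    ∑ A ∈ D.powerset, ∑ C ∈ A.powerset, (∏ p ∈ A, a p) * ∏ p ∈ (D \ A) ∪ C, b p =
      ∏ p ∈ D, (a p * (1 + b p) + b p) := by
  rw [prod_add]
  refine sum_congr rfl fun A _ => ?_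
  rw [prod_mul_distrib, prod_one_add, mul_assoc, sum_mul, mul_sum]
  refine sum_congr rfl fun C hC => ?_
  have h : Disjoint (D \ A) C := sdiff_disjoint.mono_right (mem_powerset.1 hC)
  rw [prod_union h, mul_comm (∏ p ∈ D \ A, _)]

theorem mul_fam (a b : ℕ → ℝ) (ha : ∀ p, 0 ≤ a p) (hb : ∀ p, 0 ≤ b p) (v y z : ℕ) :
    (∑ A ∈ fam v y, ∏ p ∈ A, a p) * (∑ B ∈ fam v z, ∏ p ∈ B, b p) ≤
      ∑ D ∈ fam v (y * z), ∏ p ∈ D, (a p * (1 + b p) + b p) := by
  rw [sum_mul_sum, ← sum_product' (f := fun A B => (∏ p ∈ A, a p) * ∏ p ∈ B, b p)]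
  simp only [← inner, sum_sigma']
  have h0 : ∀ A B : Finset ℕ, 0 ≤ (∏ p ∈ A, a p) * ∏ p ∈ B, b p := fun A B =>
    mul_nonneg (prod_nonneg fun p _ => ha p) (prod_nonneg fun p _ => hb p)
  have h1 : fam v y ×ˢ fam v z ⊆ ((fam v (y * z)).sigma fun D => D.powerset.sigma fun A =>
      A.powerset).image fun t => (t.2.1, (t.1 \ t.2.1) ∪ t.2.2) := by
    rintro ⟨A, B⟩ h
    obtain ⟨hA, hB⟩ := mem_product.1 h
    obtain ⟨hA1, hA2⟩ := mem_fam.1 hA
    obtain ⟨hB1, hB2⟩ := mem_fam.1 hB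
    refine mem_image.2 ⟨⟨A ∪ B, A, A ∩ B⟩, mem_sigma.2 ⟨mem_fam.2 ⟨fun p hp => ?_, ?_⟩,
      mem_sigma.2 ⟨mem_powerset.2 subset_union_left, mem_powerset.2 inter_subset_left⟩⟩, ?_⟩
    · rcases mem_union.1 hp with h | h
      · exact hA1 p h
      · exact hB1 p h
    · have h2 := prod_union_inter (s₁ := A) (s₂ := B) (f := fun p : ℕ => p)
      have h3 : 0 < ∏ p ∈ A ∩ B, p := prod_pos fun p hp => (hA1 p (mem_inter.1 hp).1).1.pos
      show ∏ p ∈ A ∪ B, p ≤ y * z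
      refine (Nat.le_mul_of_pos_right _ h3).trans ?_
      rw [h2]
      exact Nat.mul_le_mul hA2 hB2
    · refine Prod.ext rfl ?_
      show ((A ∪ B) \ A) ∪ (A ∩ B) = B
      ext p
      simp only [mem_union, mem_sdiff, mem_inter]
      tauto
  exact (sum_le_sum_of_subset_of_nonneg h1 fun _ _ _ => h0 _ _).trans
      (sum_image_le_of_nonneg
        (f := fun x : Finset ℕ × Finset ℕ => (∏ p ∈ x.1, a p) * ∏ p ∈ x.2, b p)
        fun _ _ => h0 _ _)

theorem pow_le (v Y : ℕ) : ∀ j : ℕ, j ≤ v → (∑ A ∈ fam v Y, w A) ^ j ≤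
    ∑ D ∈ fam v (Y ^ j), ∏ p ∈ D, max (((j : ℝ) / p) / (1 - (j : ℝ) / p)) 0 := by
  intro j
  induction j with
  | zero =>
    intro _
    have h0 : (∅ : Finset ℕ) ∈ fam v (Y ^ 0) := mem_fam.2 ⟨by simp, by simp⟩
    have := single_le_sum (f := fun D : Finset ℕ =>
      ∏ p ∈ D, max ((((0 : ℕ) : ℝ) / p) / (1 - ((0 : ℕ) : ℝ) / p)) 0)
      (fun D _ => prod_nonneg fun p _ => le_max_right _ _) h0
    rwa [prod_empty, ← pow_zero (∑ A ∈ fam v Y, w A)] at this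
  | succ j ih =>
    intro hj
    have h6 : 0 ≤ ∑ A ∈ fam v Y, w A := sum_nonneg fun A _ => w_nonneg A
    rw [pow_succ, pow_succ]
    refine (mul_le_mul_of_nonneg_right (ih (by omega)) h6).trans ?_
    refine (mul_fam (fun p => max (((j : ℝ) / p) / (1 - (j : ℝ) / p)) 0) (fun p => (p : ℝ)⁻¹)
      (fun p => le_max_right _ _) (fun p => by positivity) v _ _).trans ?_
    refine sum_le_sum fun D hD => prod_le_prod (fun p _ => ?_) fun p hp => ?_
    · have := le_max_right (((j : ℝ) / p) / (1 - (j : ℝ) / p)) 0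
      positivity
    · have h1 : j + 1 < p := lt_of_le_of_lt hj ((mem_fam.1 hD).1 p hp).2
      have h2 : (j : ℝ) + 1 < p := by exact_mod_cast h1
      have h3 : (0 : ℝ) ≤ j := Nat.cast_nonneg j
      have h4 : (0 : ℝ) < p := by linarith
      have h5 : (0 : ℝ) < p - j := by linarith
      have h7 : (0 : ℝ) < p - (j + 1) := by linarith
      have e1 : ((j : ℝ) / p) / (1 - (j : ℝ) / p) = j / (p - j) := by field_simp
      have e2 : (((j + 1 : ℕ) : ℝ) / p) / (1 - ((j + 1 : ℕ) : ℝ) / p) = (j + 1) / (p - (j + 1)) := by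
        push_cast; field_simp
      rw [e1, e2, max_eq_left (by positivity)]
      refine le_trans ?_ (le_max_left _ _)
      have e3 : (j : ℝ) / (p - j) * (1 + (p : ℝ)⁻¹) + (p : ℝ)⁻¹ = (j + 1) / (p - j) := by
        field_simp; ring
      rw [e3]
      gcongr
      linarith

theorem block (j : ℕ) (hj : 1 ≤ j) :
    ∑ p ∈ (Ioc (2 ^ j) (2 ^ (j + 1))).filter Nat.Prime, (p : ℝ)⁻¹ ≤ 4 * (j : ℝ)⁻¹ := by
  have hj0 : (0 : ℝ) < j := by exact_mod_cast hj
  have hl : 0 < Real.log 2 := Real.log_pos (by norm_num)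
  have h1 := Chebyshev.theta_le_log4_mul_x (x := ((2 ^ (j + 1) : ℕ) : ℝ)) (by positivity)
  rw [Chebyshev.theta, Nat.floor_natCast] at h1
  have h2 : ∑ p ∈ (Ioc (2 ^ j) (2 ^ (j + 1))).filter Nat.Prime, Real.log p ≤
      ∑ p ∈ (Ioc 0 (2 ^ (j + 1))).filter Nat.Prime, Real.log p :=
    sum_le_sum_of_subset_of_nonneg (filter_subset_filter _ (Ioc_subset_Ioc_left (Nat.zero_le _)))
      fun p _ _ => Real.log_natCast_nonneg p
  have h4 : Real.log 4 = 2 * Real.log 2 := by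
    rw [show (4 : ℝ) = 2 ^ 2 by norm_num, Real.log_pow]; norm_num
  calc _ ≤ ∑ p ∈ (Ioc (2 ^ j) (2 ^ (j + 1))).filter Nat.Prime,
        (2 ^ j * (j * Real.log 2))⁻¹ * Real.log p := by
        refine sum_le_sum fun p hp => ?_
        have a1 : 2 ^ j < p := (mem_Ioc.1 (mem_filter.1 hp).1).1
        have a2 : (2 : ℝ) ^ j ≤ p := by exact_mod_cast a1.le
        have a3 : j * Real.log 2 ≤ Real.log p := by
          rw [← Real.log_pow]; exact Real.log_le_log (by positivity) a2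
        calc (p : ℝ)⁻¹ ≤ (2 ^ j)⁻¹ := inv_anti₀ (by positivity) a2
          _ = (2 ^ j * (j * Real.log 2))⁻¹ * (j * Real.log 2) := by field_simp
          _ ≤ _ := by gcongr
    _ = (2 ^ j * (j * Real.log 2))⁻¹ *
        ∑ p ∈ (Ioc (2 ^ j) (2 ^ (j + 1))).filter Nat.Prime, Real.log p := by rw [mul_sum]
    _ ≤ (2 ^ j * (j * Real.log 2))⁻¹ * (Real.log 4 * ((2 ^ (j + 1) : ℕ) : ℝ)) := by
        gcongr; exact h2.trans h1
    _ = _ := by rw [h4]; push_cast; field_simp; ring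

theorem sum_dyadic (J : ℕ) :
    ∑ p ∈ (Ioc 0 (2 ^ (J + 1))).filter Nat.Prime, (p : ℝ)⁻¹ ≤
      1 / 2 + 4 * ∑ j ∈ Icc 1 J, (j : ℝ)⁻¹ := by
  induction J with
  | zero =>
    have : (Ioc 0 (2 ^ (0 + 1))).filter Nat.Prime = {2} := by decide
    rw [this]; simp
  | succ J ih =>
    have h1 : Ioc 0 (2 ^ (J + 1 + 1)) = Ioc 0 (2 ^ (J + 1)) ∪ Ioc (2 ^ (J + 1)) (2 ^ (J + 1 + 1)) :=
      (Ioc_union_Ioc_eq_Ioc (Nat.zero_le _) (Nat.pow_le_pow_right (by norm_num) (by omega))).symm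
    rw [h1, filter_union, sum_union (disjoint_filter_filter (Ioc_disjoint_Ioc_of_le le_rfl)),
      sum_Icc_succ_top (by omega)]
    have := block (J + 1) (by omega)
    linarith

theorem prod_ge {v : ℕ} (hv : 2 ≤ v) :
    Real.exp (-9) / 256 / Real.log v ^ 8 ≤ ∏ p ∈ PP v, (1 - (p : ℝ)⁻¹) := by
  set J := Nat.log 2 v with hJ
  have hJ1 : 1 ≤ J := Nat.le_log_of_pow_le (by norm_num) (by simpa using hv)
  have hJ0 : (0 : ℝ) < J := by exact_mod_cast hJ1
  have h1 : PP v ⊆ (Ioc 0 (2 ^ (J + 1))).filter Nat.Prime := by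
    intro p hp
    obtain ⟨a, b⟩ := mem_filter.1 hp
    have := Nat.lt_pow_succ_log_self (b := 2) (by norm_num) v
    rw [mem_range] at a
    exact mem_filter.2 ⟨mem_Ioc.2 ⟨b.pos, by rw [hJ]; omega⟩, b⟩
  have h2 : ∑ p ∈ PP v, (p : ℝ)⁻¹ ≤ 1 / 2 + 4 * (1 + Real.log J) := by
    refine (sum_le_sum_of_subset_of_nonneg h1 fun _ _ _ => by positivity).trans
      ((sum_dyadic J).trans ?_)
    have h := harmonic_le_one_add_log J
    simp only [harmonic_eq_sum_Icc, Rat.cast_sum, Rat.cast_inv, Rat.cast_natCast] at h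
    linarith
  have h3 : Real.exp (-2 * ∑ p ∈ PP v, (p : ℝ)⁻¹) ≤ ∏ p ∈ PP v, (1 - (p : ℝ)⁻¹) := by
    rw [mul_sum, Real.exp_sum]
    refine prod_le_prod (fun _ _ => (Real.exp_pos _).le) fun p hp => ?_
    have a1 : (2 : ℝ) ≤ p := by exact_mod_cast (mem_filter.1 hp).2.two_le
    have a2 : (p : ℝ)⁻¹ ≤ 1 / 2 := by rw [one_div]; exact inv_anti₀ (by norm_num) a1
    have a3 : 0 ≤ (p : ℝ)⁻¹ := by positivity
    have a4 := Real.add_one_le_exp (2 * (p : ℝ)⁻¹)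
    rw [neg_mul, Real.exp_neg, inv_le_iff_one_le_mul₀ (Real.exp_pos _)]
    nlinarith
  have h4 : (J : ℝ) ≤ 2 * Real.log v := by
    have a1 : 2 ^ J ≤ v := Nat.pow_log_le_self 2 (by omega)
    have a2 : (2 : ℝ) ^ J ≤ v := by exact_mod_cast a1
    have a3 := Real.log_le_log (by positivity) a2
    rw [Real.log_pow] at a3
    nlinarith [Real.log_two_gt_d9]
  refine le_trans ?_ h3
  calc _ = Real.exp (-9) / (2 * Real.log v) ^ 8 := by rw [div_div, mul_pow]; norm_num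
    _ ≤ Real.exp (-9) / (J : ℝ) ^ 8 := by gcongr
    _ = Real.exp (-9 - 8 * Real.log J) := by
        rw [Real.exp_sub, show (8 : ℝ) * Real.log J = ((8 : ℕ) : ℝ) * Real.log J by norm_num,
          Real.exp_nat_mul, Real.exp_log hJ0]
    _ ≤ _ := Real.exp_le_exp.2 (by linarith)

end SgAux

open SgAux in
theorem rowSG : RowSG := by
  refine ⟨Real.exp (-9) / 512, by positivity, 8, fun k v Y hk hv hY => ?_⟩
  have h1 := prod_ge (v := v) (by omega)
  have h2 := sieve (PP v) Y fun p hp => (mem_filter.1 hp).2.pos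
  have h3 := sqf v Y
  have h4 := log_le Y
  have h5 : 0 ≤ Real.log Y := Real.log_natCast_nonneg Y
  have h6 : 0 ≤ Real.log v := Real.log_natCast_nonneg v
  have h7 : Real.exp (-9) / 256 / Real.log v ^ 8 * Real.log Y ≤
      (∏ p ∈ PP v, (1 - (p : ℝ)⁻¹)) * ∑ n ∈ Icc 1 Y, (n : ℝ)⁻¹ :=
    mul_le_mul h1 h4 h5 (le_trans (by positivity) h1)
  have h8 : Real.exp (-9) / 512 * Real.log Y / Real.log v ^ 8 ≤ ∑ A ∈ fam v Y, w A := by
    have e : Real.exp (-9) / 512 * Real.log Y / Real.log v ^ 8 =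
        Real.exp (-9) / 256 / Real.log v ^ 8 * Real.log Y / 2 := by ring
    rw [e]; linarith
  refine (pow_le_pow_left₀ (by positivity) h8 k).trans ((pow_le v Y k hv.le).trans ?_)
  refine le_of_eq (sum_congr rfl fun D hD => prod_congr rfl fun p hp => max_eq_left ?_)
  have a1 : k < p := hv.trans ((mem_fam.1 hD).1 p hp).2
  have a2 : (k : ℝ) < p := by exact_mod_cast a1
  have a3 : (0 : ℝ) < p := lt_of_le_of_lt (Nat.cast_nonneg k) a2
  have a4 : 0 < 1 - (k : ℝ) / p := by rw [sub_pos, div_lt_one a3]; exact a2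
  positivity

end Pool.Agent.MP_db5b97_nt.H52
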